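import Pool.Agent.Q28.FG.Kim

/-!
# Kimura finite-dimensionality and finite generation of the Chow groups of powers

Let `X` be a smooth projective complex variety. The motive of `X` is finite-dimensional in the sense
of Kimura if it has a decomposition `M_+ ⊕ M_-` with `Λ^n M_+ = 0` and `Sym^n M_- = 0` for some `n`.
This holds if and only if there is a decomposition such that, for some `n`, the motives `Λ^n M_+` and
`Sym^n M_-` have no cohomology (which holds for large `n` if `M_+` has no odd and `M_-` no even
cohomology) and all their Chow groups are finitely generated over the ring of self-correspondences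
of `X^n`; and if and only if there is a decomposition such that the Chow groups of `Λ^n M_+` and
`Sym^n M_-` are generated, under all correspondences, by countably many algebraically trivial
cycles on arbitrary varieties.
-/

open CategoryTheory AlgebraicGeometry

universe u v w

namespace Pool.Agent.Results.MP_868bb7_ag.FinitelyGeneratedPowers

open Pool.Agent.H914 Pool.Agent.H914.VarClass Pool.Agent.H914.VarClass.Obj Pool.Agent.W492.BB
  Pool.Agent.TH133 Pool.Agent.Q28.PV Pool.Agent.Q28.AL Pool.Agent.Q28.FG

/-- **Finite-dimensionality and finite generation.** Let `C` be the Chow theory with rational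
coefficients and `H` a Weil cohomology theory on the smooth projective varieties over the complex
numbers (`hP`: known facts on algebraic cycles), `X` a variety and `Y n = X^n` its powers, with the
projections `pr n i`. Equivalent are: `X` is finite-dimensional in the sense of Kimura; there are a
decomposition of the motive of `X` as `M_+ ⊕ M_-` and a number `n` such that `Λ^n M_+` and
`Sym^n M_-` have no cohomology and finitely generated Chow groups; there are such a decomposition and
`n` such that the Chow groups of `Λ^n M_+` and `Sym^n M_-` are generated by countably many
algebraically trivial cycles under correspondences. -/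
theorem result {k : Type u} [Field k] {𝒱 : VarClass k} {C : TheoryData.{u, v, 0} 𝒱 ℚ}
    [IsChowProj C] {K : Type w} [Field K] {H : WeilTheoryData.{u, v, w} C K} [IsWeilProj H]
    (hP : Principles H) (X : 𝒱.Obj) (Y : ℕ → 𝒱.Obj) (pr : ∀ n, Fin n → (Y n ⟶ X))
    (hY : ArePowers C X Y pr) :
    [SplitsWith (C := C) pr fun _ e => e = 0,
      SplitsWith (C := C) pr fun _ e => H.cl e = 0 ∧ FinitelyGeneratedMotive e,
      SplitsWith (C := C) pr fun _ e => CountablyAlgGenerated H e].TFAE :=
  kim_main hP hY

end Pool.Agent.Results.MP_868bb7_ag.FinitelyGeneratedPowers
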