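import Pool.Agent.Q210.KF.Ab

/-!
# Kimura finiteness for hypersurfaces given by sums of forms in few variables

Let `W` be a smooth complex hypersurface of ARBITRARY dimension with the equation
`f_1 + f_2 + ⋯ + f_r = 0`, the `f_j` forms of degree `d` in disjoint sets of variables, where every
`f_j` has at most two variables, or `d = 3` and every `f_j` has at most four variables (and `f_j` may
be replaced by `f_j - u_j^d`, `u_j` a further variable).

We prove that all products of such hypersurfaces, of curves and of abelian varieties are
finite-dimensional in the sense of Kimura, and determine the vanishing exterior and symmetric powers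
of the primitive motive `M_W` exactly: if `b` is the primitive Betti number then `Λ^(b+1) M_W = 0` and
`Λ^b M_W ≠ 0` for even dimension, `Sym^(b+1) M_W = 0` and `Sym^b M_W ≠ 0` for odd dimension.
-/

open CategoryTheory MonoidalCategory Limits

universe v u w w'

namespace Pool.Agent.Results.MP_868bb7_ag.HypersurfacesFromSmallForms

open Pool.Agent.Q28.HJ Pool.Agent.Y112.SR Pool.Agent.Y112.KD Pool.Agent.Q20.Kf Pool.Agent.Q210.KF

/-- **Kimura finiteness of hypersurfaces given by sums of small forms.** Let `𝓜` be the category of
Chow motives over the complex numbers with rational coefficients, `R` the Betti realization (a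
symmetric monoidal functor to super vector spaces), `T` the hypersurfaces and the abelian varieties
(`hT`: known facts).
(1) Let `M` be a motive obtained by tensor products, direct sums, direct summands and Tate twists
from the motives of abelian varieties and from the motives `T.mot W` of the smooth hypersurfaces `W`
which are sums, in disjoint sets of variables, of binary forms or of cubic forms in at most four
variables (`IsAbelianSum`). Then `M` is finite-dimensional in the sense of Kimura, every endomorphism
of `M` which acts as zero on cohomology is nilpotent, and `M = 0` if the cohomology of `M` is zero.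
(2) Let `W` be such a hypersurface, `b` its primitive Betti number. If `dim W` is even, the exterior
power `Λ^n` of the primitive motive of `W` vanishes for `n = b + 1` and not for `n = b`; if `dim W` is
odd this holds for the symmetric powers. -/
theorem result {𝓜 : Type u} [Category.{v} 𝓜] [Preadditive 𝓜] [Linear ℚ 𝓜] [MonoidalCategory 𝓜]
    [MonoidalPreadditive 𝓜] [MonoidalLinear ℚ 𝓜] [SymmetricCategory 𝓜] [RightRigidCategory 𝓜]
    (hU : UnitQ 𝓜) {K : Type w'} [Field K] (R : SuperRealisation 𝓜 K)
    (T : AbelianData.{v, u, w} 𝓜) (hT : T.Facts R) :
    (∀ M : 𝓜, GenBy T.L (fun N => T.Ab N ∨ ∃ W, T.IsAbelianSum W ∧ N = T.mot W) M →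
      IsKimuraFinite M ∧ (∀ x : End M, R.H.map (x : M ⟶ M) = 0 → IsNilpotent x) ∧
        (IsZero (R.H.obj M) → IsZero M)) ∧
    ∀ W : T.Hyp, T.IsAbelianSum W → ∃ b : ℕ, AbelianData.IsBetti (T.deg W) (T.dim W) b ∧
      (Even (T.dim W) → Kills (-1) (T.prim W) (b + 1) ∧ ¬ Kills (-1) (T.prim W) b) ∧
      (Odd (T.dim W) → Kills 1 (T.prim W) (b + 1) ∧ ¬ Kills 1 (T.prim W) b) :=
  ⟨fun _ hM => AbelianData.finite hU hT hM, fun _ hW => AbelianData.exact_powers hU hT hW⟩

end Pool.Agent.Results.MP_868bb7_ag.HypersurfacesFromSmallForms
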