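import Pool.Agent.Q20.Kf.Dich

/-!
# Short relations between permutations imply finite-dimensionality

`C` is a `ℚ`-linear rigid symmetric monoidal category whose unit object has only rational scalars as
endomorphisms, for example the category of Chow motives with rational coefficients over a field.

Theorem. Let `M` be an object of `C` such that for some `n` the automorphisms of `M^n` given by the
permutations of the factors are linearly dependent over `ℚ` (equivalently, `M` is Schur-finite).
Then there are integers `a, b ≥ 0` such that the dimension of `M` is `a - b` and the permutations of
the factors of `M^m` are linearly dependent if and only if `m ≥ (a + 1) (b + 1)`. If `b = 0` then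
`Λ^(a + 1) M = 0`, and if `a = 0` then `Sym^(b + 1) M = 0`.

Consequence. If `M` has dimension `d` and the permutations of the factors of `M^n` are linearly
dependent for some `n < 2 (|d| + 2)` then `Λ^(|d| + 1) M = 0` or `Sym^(|d| + 1) M = 0`, so that `M` is
finite-dimensional in the sense of Kimura.

So there is a gap: if `M` is a pure motive of dimension `d` (for example the transcendental part of
the motive of a surface, with `d = b_2 - ρ`, or `h^3` of a quintic threefold, with `d = -204`) then
either `M` is finite-dimensional or there is no linear relation at all between the permutations of
the factors of `M^n`, for all `n ≤ 2 |d| + 3`; the relation in degree `|d| + 1` which expresses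
finite-dimensionality is implied by any relation of degree at most `2 |d| + 3`, also by relations
which hold only after symmetrization with respect to a large Young diagram.

Proof. Let `n` be the least degree with a relation and `I` the ideal of relations in `ℚ[S_n]`. The
contraction of the last factor kills `I` (as there are no relations in degree `n - 1`), and this means
that for each letter `m` the sum of the transpositions `(l m)`, `l ≠ m`, acts on `I` as the scalar
`-d`. Let `S` be a set of letters of maximal cardinality `k` such that some `z ≠ 0` in `I` is
antisymmetric in the letters of `S`. Summing `z (l m)` over `m` in `S` and `l` not in `S` in two ways gives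
`n = k (k - d)`. In the same way `n = j (j + d)`, where `j` is the maximal number of symmetric
letters. Hence `d = k - j` and `n = k j`.
-/

set_option autoImplicit false

open CategoryTheory MonoidalCategory

namespace Pool.Agent.Results.MP_868bb7_ag.ShortRelations

open Pool.Agent.Y112.KD Pool.Agent.Q20.Kf
open Pool.Agent.Y116.MT (tr)

universe v u

theorem result {C : Type u} [Category.{v} C] [MonoidalCategory C] [SymmetricCategory C]
    [Preadditive C] [Linear ℚ C] [MonoidalPreadditive C] [MonoidalLinear ℚ C]
    [RightRigidCategory C] (hU : UnitQ C) (M : C) (n : ℕ) (h : SchurFiniteAt M n) :
    ∃ a b : ℕ, tr (𝟙 M) = ((a : ℚ) - b) • 𝟙 _ ∧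
      (∀ m, SchurFiniteAt M m ↔ (a + 1) * (b + 1) ≤ m + 1) ∧
      (b = 0 → Kills (-1) M (a + 1)) ∧ (a = 0 → Kills 1 M (b + 1)) ∧
      ((n : ℤ) + 1 < 2 * (|(a : ℤ) - b| + 2) → Kills (-1) M (a + 1) ∨ Kills 1 M (b + 1)) :=
  short_relation hU M h

end Pool.Agent.Results.MP_868bb7_ag.ShortRelations
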