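import Pool.Agent.Q226.SC.KimuraMain

set_option autoImplicit false

/-!
# Chow motives of surfaces and simply connected surfaces
-/

namespace Pool.Agent.Results.MP_868bb7_ag.SurfacesFromSimplyConnected

open Pool.Agent.Q226.SC CategoryTheory CategoryTheory.Limits

universe u v

/-- 1. The Chow motive (with rational coefficients) of every smooth projective complex surface is a
direct summand of `h(S) ⊕ K`, where `S` is a simply connected smooth projective surface and `K` is a
finite direct sum of Tate twists of motives of abelian varieties.

2. All smooth projective complex surfaces are Kimura finite-dimensional if and only if all simply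
connected ones are. -/
theorem result (G : Geo) (M : Type u) [Category.{v} M] [Preadditive M] [Linear ℚ M]
    [HasBinaryBiproducts M] (T : Motives G M) (F : MotiveFacts T) :
    (∀ X : G.Var, G.dim X = 2 → ∃ (S : G.Var) (K : M), G.dim S = 2 ∧ G.SC S ∧ T.Abel K ∧
      IsSummand (T.h X) (T.h S ⊞ K)) ∧
    ((∀ X : G.Var, G.dim X = 2 → T.FD (T.h X)) ↔
      ∀ S : G.Var, G.dim S = 2 → G.SC S → T.FD (T.h S)) :=
  ⟨summand_all F, fd_iff F⟩

end Pool.Agent.Results.MP_868bb7_ag.SurfacesFromSimplyConnected
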